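import Mathlib

set_option autoImplicit false

/-!
# Coset geometries of C-groups: thin and residually connected implies flag-transitive

Let `(G, {ρ_0, …, ρ_{r-1}})` be a C-group of rank `r` (no finiteness of `G` is assumed, and no
linear ordering of the generators), and let `Γ` be its coset geometry with respect to the subgroups
`G_i = ⟨ρ_j : j ≠ i⟩`.  We prove that if `Γ` is thin and residually connected, then `G` is
transitive on the chambers of `Γ`.  In particular there is no C-group of rank `r ≥ 4` whose coset
geometry is thin and residually connected but not flag-transitive.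

For residues of rank at least two only the following weak form of connectedness is used: any two
elements of the residue are joined by a path of the incidence graph of the residue.  (So the
statement covers both the convention in which a connected graph must be nonempty and the one in
which the empty graph is connected.)
-/

namespace Pool.Agent.Results.MP_0d307c_co.ThinRCFlagTransitive

open Set

universe u

variable {G : Type u} [Group G] {r : ℕ}

/-- `(G, {ρ_0, …, ρ_{r-1}})` is a C-group of rank `r`: the `ρ_i` are `r` distinct involutions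
generating `G` and satisfying the intersection property. -/
structure IsCGroup (ρ : Fin r → G) : Prop where
  /-- the generators are pairwise distinct -/
  distinct : Function.Injective ρ
  /-- each generator is an involution -/
  involution : ∀ i, orderOf (ρ i) = 2
  /-- the generators generate the group -/
  generate : Subgroup.closure (range ρ) = ⊤
  /-- the intersection property -/
  intersection : ∀ I J : Set (Fin r),
    Subgroup.closure (ρ '' I) ⊓ Subgroup.closure (ρ '' J) = Subgroup.closure (ρ '' (I ∩ J))

/-- The subgroup `G_i = ⟨ρ_j : j ≠ i⟩`. -/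
def parabolic (ρ : Fin r → G) (i : Fin r) : Subgroup G :=
  Subgroup.closure (ρ '' {j | j ≠ i})

/-- The right coset `H g = {h * g : h ∈ H}`. -/
def rightCoset (H : Subgroup G) (g : G) : Set G := {x | ∃ h ∈ H, x = h * g}

/-- The elements of the coset geometry `Γ(G; (G_i)_i)`: an element of type `i` is a right coset
`G_i g`. -/
@[ext]
structure Element (ρ : Fin r → G) where
  /-- the type of the element -/
  typ : Fin r
  /-- the underlying set of group elements -/
  coset : Set G
  /-- the underlying set is a right coset of `G_i`, where `i` is the type -/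
  isCoset : ∃ g : G, coset = rightCoset (parabolic ρ typ) g

/-- Two elements are incident iff the cosets intersect. -/
def Incident {ρ : Fin r → G} (x y : Element ρ) : Prop := (x.coset ∩ y.coset).Nonempty

/-- The incidence graph of the coset geometry. -/
def incidenceGraph (ρ : Fin r → G) : SimpleGraph (Element ρ) where
  Adj x y := x ≠ y ∧ Incident x y
  symm := ⟨fun x y h => ⟨h.1.symm, by
    obtain ⟨g, hg⟩ := h.2
    exact ⟨g, hg.2, hg.1⟩⟩⟩
  loopless := ⟨fun _ h => h.1 rfl⟩

/-- A flag is a set of pairwise incident elements. -/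
def IsFlag {ρ : Fin r → G} (F : Set (Element ρ)) : Prop := ∀ x ∈ F, ∀ y ∈ F, Incident x y

/-- A chamber is a flag containing an element of each of the `r` types. -/
def IsChamber {ρ : Fin r → G} (C : Set (Element ρ)) : Prop :=
  IsFlag C ∧ ∀ i : Fin r, ∃ x ∈ C, x.typ = i

/-- The residue of a flag `F`: all elements not in `F`, of types not met by `F`, that are incident
with every element of `F`. -/
def residue {ρ : Fin r → G} (F : Set (Element ρ)) : Set (Element ρ) :=
  {x | x ∉ F ∧ (∀ y ∈ F, y.typ ≠ x.typ) ∧ ∀ y ∈ F, Incident x y}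

/-- The geometry is thin: every flag with `r - 1` elements lies in exactly two chambers. -/
def IsThin (ρ : Fin r → G) : Prop :=
  ∀ F : Set (Element ρ), IsFlag F → F.encard + 1 = r → {C | IsChamber C ∧ F ⊆ C}.encard = 2

/-- The geometry is residually connected: in every residue of rank at least two any two elements
are joined by a path in the incidence graph of the residue, and every residue of rank one is
nonempty.  The rank of the residue of a flag `F` is `r - |F|`. -/
def IsResiduallyConnected (ρ : Fin r → G) : Prop :=
  (∀ F : Set (Element ρ), IsFlag F → F.encard + 2 ≤ r →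
    ((incidenceGraph ρ).induce (residue F)).Preconnected) ∧
  (∀ F : Set (Element ρ), IsFlag F → F.encard + 1 = r → (residue F).Nonempty)

/-- The image of an element under right multiplication by `g`. -/
def Element.mulRight {ρ : Fin r → G} (x : Element ρ) (g : G) : Element ρ where
  typ := x.typ
  coset := {y | ∃ a ∈ x.coset, y = a * g}
  isCoset := by
    obtain ⟨k, hk⟩ := x.isCoset
    refine ⟨k * g, ?_⟩
    ext y
    constructor
    · rintro ⟨a, ha, rfl⟩
      rw [hk] at ha
      obtain ⟨h, hh, rfl⟩ := ha
      exact ⟨h, hh, by group⟩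
    · rintro ⟨h, hh, rfl⟩
      exact ⟨h * k, by rw [hk]; exact ⟨h, hh, rfl⟩, by group⟩

/-- The geometry is flag-transitive: `G`, acting by right multiplication, is transitive on the set
of chambers. -/
def IsFlagTransitive (ρ : Fin r → G) : Prop :=
  ∀ C D : Set (Element ρ), IsChamber C → IsChamber D →
    ∃ g : G, (fun x : Element ρ => x.mulRight g) '' C = D

/-! ### Basic facts on right cosets -/

theorem mem_rightCoset_iff {H : Subgroup G} {g x : G} : x ∈ rightCoset H g ↔ x * g⁻¹ ∈ H := by
  constructor
  · rintro ⟨h, hh, rfl⟩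
    simpa using hh
  · intro h
    exact ⟨x * g⁻¹, h, by group⟩

theorem self_mem_rightCoset (H : Subgroup G) (g : G) : g ∈ rightCoset H g :=
  ⟨1, H.one_mem, by simp⟩

theorem rightCoset_eq_of_mem {H : Subgroup G} {g x : G} (h : x ∈ rightCoset H g) :
    rightCoset H g = rightCoset H x := by
  obtain ⟨k, hk, rfl⟩ := h
  ext y
  rw [mem_rightCoset_iff, mem_rightCoset_iff]
  have : y * (k * g)⁻¹ = (y * g⁻¹) * k⁻¹ := by group
  rw [this]
  constructor
  · intro hy
    exact H.mul_mem hy (H.inv_mem hk)
  · intro hy
    have := H.mul_mem hy hk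
    simpa using this

/-- The element of type `i` through the group element `g`. -/
def elt (ρ : Fin r → G) (i : Fin r) (g : G) : Element ρ :=
  ⟨i, rightCoset (parabolic ρ i) g, ⟨g, rfl⟩⟩

theorem eq_elt {ρ : Fin r → G} (x : Element ρ) {g : G} (hg : g ∈ x.coset) :
    x = elt ρ x.typ g := by
  obtain ⟨k, hk⟩ := x.isCoset
  ext1
  · rfl
  · rw [hk] at hg
    rw [hk, rightCoset_eq_of_mem hg]
    rfl

theorem mem_elt (ρ : Fin r → G) (i : Fin r) (g : G) : g ∈ (elt ρ i g).coset :=
  self_mem_rightCoset _ _

/-- Incident elements of the same type are equal. -/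
theorem eq_of_incident_of_typ {ρ : Fin r → G} {x y : Element ρ} (h : Incident x y)
    (ht : x.typ = y.typ) : x = y := by
  obtain ⟨g, hx, hy⟩ := h
  rw [eq_elt x hx, eq_elt y hy, ht]

theorem incident_comm {ρ : Fin r → G} {x y : Element ρ} (h : Incident x y) : Incident y x := by
  obtain ⟨g, hx, hy⟩ := h
  exact ⟨g, hy, hx⟩

/-- The standard chamber through `g`. -/
def ch (ρ : Fin r → G) (g : G) : Set (Element ρ) := range fun i => elt ρ i g

theorem isChamber_ch (ρ : Fin r → G) (g : G) : IsChamber (ch ρ g) := by
  refine ⟨?_, fun i => ⟨elt ρ i g, ⟨i, rfl⟩, rfl⟩⟩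
  rintro _ ⟨i, rfl⟩ _ ⟨j, rfl⟩
  exact ⟨g, mem_elt ρ i g, mem_elt ρ j g⟩

/-- A set of elements is good if the cosets have a common point. -/
def Good {ρ : Fin r → G} (F : Set (Element ρ)) : Prop := ∃ g : G, ∀ x ∈ F, g ∈ x.coset

theorem Good.mono {ρ : Fin r → G} {F F' : Set (Element ρ)} (h : Good F') (hF : F ⊆ F') :
    Good F := by
  obtain ⟨g, hg⟩ := h
  exact ⟨g, fun x hx => hg x (hF hx)⟩

theorem Good.isFlag {ρ : Fin r → G} {F : Set (Element ρ)} (h : Good F) : IsFlag F := by
  obtain ⟨g, hg⟩ := h
  exact fun x hx y hy => ⟨g, hg x hx, hg y hy⟩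

theorem subset_ch {ρ : Fin r → G} {F : Set (Element ρ)} {g : G} (hg : ∀ x ∈ F, g ∈ x.coset) :
    F ⊆ ch ρ g := fun x hx => ⟨x.typ, (eq_elt x (hg x hx)).symm⟩

theorem ch_eq_of_chamber {ρ : Fin r → G} {C : Set (Element ρ)} (hC : IsChamber C) {g : G}
    (hg : ∀ x ∈ C, g ∈ x.coset) : C = ch ρ g := by
  apply Subset.antisymm (subset_ch hg)
  rintro _ ⟨i, rfl⟩
  obtain ⟨x, hx, rfl⟩ := hC.2 i
  have := eq_elt x (hg x hx)
  simp only
  rw [← this]
  exact hx

/-- Flags have at most `r` elements: the type map is injective on a flag. -/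
theorem IsFlag.injOn {ρ : Fin r → G} {F : Set (Element ρ)} (h : IsFlag F) :
    InjOn Element.typ F := fun x hx y hy hxy => eq_of_incident_of_typ (h x hx y hy) hxy

theorem IsFlag.encard_eq {ρ : Fin r → G} {F : Set (Element ρ)} (h : IsFlag F) :
    F.encard = (Element.typ '' F).encard := (h.injOn.encard_image).symm

theorem IsFlag.finite {ρ : Fin r → G} {F : Set (Element ρ)} (h : IsFlag F) : F.Finite :=
  Set.Finite.of_finite_image (Set.toFinite _) h.injOn

/-- A generator is not contained in the opposite maximal parabolic subgroup. -/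
theorem not_mem_parabolic {ρ : Fin r → G} (hC : IsCGroup ρ) (i : Fin r) :
    ρ i ∉ parabolic ρ i := by
  intro h
  have h1 : ρ i ∈ Subgroup.closure (ρ '' {i}) := Subgroup.subset_closure ⟨i, rfl, rfl⟩
  have h2 : ρ i ∈ Subgroup.closure (ρ '' {i}) ⊓ Subgroup.closure (ρ '' {j | j ≠ i}) :=
    ⟨h1, h⟩
  rw [hC.intersection] at h2
  have h3 : ({i} ∩ {j | j ≠ i} : Set (Fin r)) = ∅ := by
    ext j
    simp
  rw [h3] at h2
  simp only [image_empty, Subgroup.closure_empty, Subgroup.mem_bot] at h2
  have := hC.involution i
  rw [h2] at this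
  simp at this

theorem mem_parabolic {ρ : Fin r → G} {i j : Fin r} (h : i ≠ j) : ρ i ∈ parabolic ρ j :=
  Subgroup.subset_closure ⟨i, h, rfl⟩

theorem elt_mul_of_ne {ρ : Fin r → G} {i j : Fin r} (h : i ≠ j) (g : G) :
    elt ρ j (ρ i * g) = elt ρ j g := by
  have : rightCoset (parabolic ρ j) (ρ i * g) = rightCoset (parabolic ρ j) g :=
    (rightCoset_eq_of_mem ⟨ρ i, mem_parabolic h, rfl⟩).symm
  ext1
  · rfl
  · exact this

theorem elt_mul_ne {ρ : Fin r → G} (hC : IsCGroup ρ) (i : Fin r) (g : G) :
    elt ρ i (ρ i * g) ≠ elt ρ i g := by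
  intro h
  have h1 : ρ i * g ∈ (elt ρ i g).coset := by
    rw [← h]
    exact mem_elt ρ i _
  have h2 := mem_rightCoset_iff.1 h1
  rw [mul_inv_cancel_right] at h2
  exact not_mem_parabolic hC i h2

theorem ch_mul_ne {ρ : Fin r → G} (hC : IsCGroup ρ) (i : Fin r) (g : G) :
    ch ρ (ρ i * g) ≠ ch ρ g := by
  intro h
  have h1 : elt ρ i (ρ i * g) ∈ ch ρ g := by
    rw [← h]
    exact ⟨i, rfl⟩
  obtain ⟨j, hj⟩ := h1
  simp only at hj
  have hji : j = i := congrArg Element.typ hj
  subst hji
  exact elt_mul_ne hC _ g hj.symm

/-! ### The main induction -/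

theorem good_insert_of_thin {ρ : Fin r → G} (hC : IsCGroup ρ) (hthin : IsThin ρ)
    {F : Set (Element ρ)} (hF : Good F) (hcard : F.encard + 1 = r) {z : Element ρ}
    (hz : z ∈ residue F) : Good (insert z F) := by
  obtain ⟨g, hg⟩ := hF
  have hflag : IsFlag F := Good.isFlag ⟨g, hg⟩
  obtain ⟨hzF, hzt, hzi⟩ := hz
  -- the types of `F` are exactly the types different from that of `z`
  have himg : Element.typ '' F = {j | j ≠ z.typ} := by
    have hsub : Element.typ '' F ⊆ {j | j ≠ z.typ} := by
      rintro _ ⟨y, hy, rfl⟩
      exact hzt y hy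
    refine (Set.toFinite (Element.typ '' F)).eq_of_subset_of_encard_le hsub ?_
    rw [← hflag.encard_eq]
    have h1 : ({j | j ≠ z.typ} : Set (Fin r)).encard + 1 = r := by
      have : ({j | j ≠ z.typ} : Set (Fin r)) = univ \ {z.typ} := by
        ext j
        simp
      rw [this, Set.encard_sdiff_singleton_add_one (mem_univ _), Set.encard_univ]
      simp
    have h2 : ({j | j ≠ z.typ} : Set (Fin r)).encard + 1 ≤ F.encard + 1 := by
      rw [h1, hcard]
    exact (ENat.add_le_add_iff_right ENat.one_ne_top).1 h2
  have hch : IsChamber (insert z F) := by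
    constructor
    · intro x hx y hy
      rcases mem_insert_iff.1 hx with hx | hx <;> rcases mem_insert_iff.1 hy with hy | hy
      · rw [hx, hy]
        obtain ⟨k, hk⟩ := z.isCoset
        exact ⟨k, by rw [hk]; exact self_mem_rightCoset _ _, by
          rw [hk]; exact self_mem_rightCoset _ _⟩
      · rw [hx]
        exact hzi y hy
      · rw [hy]
        exact incident_comm (hzi x hx)
      · exact hflag x hx y hy
    · intro i
      by_cases hi : i = z.typ
      · exact ⟨z, mem_insert _ _, hi.symm⟩
      · have : i ∈ Element.typ '' F := by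
          rw [himg]
          exact hi
        obtain ⟨x, hx, rfl⟩ := this
        exact ⟨x, mem_insert_of_mem _ hx, rfl⟩
  have htwo := hthin F hflag hcard
  obtain ⟨A, B, hAB, hset⟩ := Set.encard_eq_two.1 htwo
  have m1 : insert z F ∈ ({C | IsChamber C ∧ F ⊆ C} : Set (Set (Element ρ))) :=
    ⟨hch, subset_insert _ _⟩
  have m2 : ch ρ g ∈ ({C | IsChamber C ∧ F ⊆ C} : Set (Set (Element ρ))) :=
    ⟨isChamber_ch ρ g, subset_ch hg⟩
  have m3 : ch ρ (ρ z.typ * g) ∈ ({C | IsChamber C ∧ F ⊆ C} : Set (Set (Element ρ))) := by
    refine ⟨isChamber_ch ρ _, fun x hx => ⟨x.typ, ?_⟩⟩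
    have hne : z.typ ≠ x.typ := (hzt x hx).symm
    simp only
    rw [elt_mul_of_ne hne]
    exact (eq_elt x (hg x hx)).symm
  have hne := ch_mul_ne hC z.typ g
  have hgood : ∀ g', Good (ch ρ g') := by
    intro g'
    refine ⟨g', ?_⟩
    rintro _ ⟨i, rfl⟩
    exact mem_elt ρ i g'
  rw [hset] at m1 m2 m3
  simp only [mem_insert_iff, mem_singleton_iff] at m1 m2 m3
  rcases m2 with m2 | m2 <;> rcases m3 with m3 | m3
  · exact absurd (m3.trans m2.symm) hne
  · rcases m1 with m1 | m1
    · rw [m1, ← m2]; exact hgood _
    · rw [m1, ← m3]; exact hgood _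
  · rcases m1 with m1 | m1
    · rw [m1, ← m3]; exact hgood _
    · rw [m1, ← m2]; exact hgood _
  · exact absurd (m3.trans m2.symm) hne

theorem good_insert {ρ : Fin r → G} (hC : IsCGroup ρ) (hthin : IsThin ρ)
    (hrc : IsResiduallyConnected ρ) (n : ℕ) :
    ∀ F : Set (Element ρ), Good F → F.encard + n = r → ∀ z ∈ residue F, Good (insert z F) := by
  induction n with
  | zero =>
    intro F hF hcard z hz
    exfalso
    have hflag := hF.isFlag
    rw [Nat.cast_zero, add_zero, hflag.encard_eq] at hcard
    have : Element.typ '' F = univ := by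
      refine (Set.toFinite (Element.typ '' F)).eq_of_subset_of_encard_le (subset_univ _) ?_
      rw [hcard, Set.encard_univ]
      simp
    have h2 : z.typ ∈ Element.typ '' F := by
      rw [this]
      exact mem_univ _
    obtain ⟨y, hy, hyt⟩ := h2
    exact hz.2.1 y hy hyt
  | succ n ih =>
    intro F hF hcard z hz
    by_cases hn : n = 0
    · subst hn
      exact good_insert_of_thin hC hthin hF (by simpa using hcard) hz
    · obtain ⟨g, hg⟩ := hF
      have hflag : IsFlag F := Good.isFlag ⟨g, hg⟩
      have hle : F.encard + 2 ≤ r := by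
        rw [← hcard]
        gcongr
        have : 2 ≤ n + 1 := by omega
        exact_mod_cast this
      have hpre := hrc.1 F hflag hle
      -- the element of the type of `z` through `g`
      have hw : elt ρ z.typ g ∈ residue F := by
        refine ⟨?_, ?_, ?_⟩
        · intro hmem
          exact hz.2.1 _ hmem rfl
        · intro y hy
          exact hz.2.1 y hy
        · intro y hy
          exact ⟨g, mem_elt ρ _ g, hg y hy⟩
      have hreach := hpre ⟨elt ρ z.typ g, hw⟩ ⟨z, hz⟩
      obtain ⟨p⟩ := hreach
      -- goodness propagates along adjacency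
      have key : ∀ (a b : residue F), ((incidenceGraph ρ).induce (residue F)).Walk a b →
          Good (insert (a : Element ρ) F) → Good (insert (b : Element ρ) F) := by
        intro a b q
        induction q with
        | nil => exact id
        | @cons a b c hab _ ihq =>
          intro hga
          apply ihq
          have hadj : (a : Element ρ) ≠ b ∧ Incident (a : Element ρ) b := hab
          have hF' : (insert (a : Element ρ) F).encard + n = r := by
            rw [Set.encard_insert_of_notMem a.2.1, ← hcard]
            push_cast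
            ring
          have hb : (b : Element ρ) ∈ residue (insert (a : Element ρ) F) := by
            refine ⟨?_, ?_, ?_⟩
            · intro hmem
              rcases hmem with h | h
              · exact hadj.1 h.symm
              · exact b.2.1 h
            · rintro y (rfl | hy)
              · intro ht
                exact hadj.1 (eq_of_incident_of_typ hadj.2 ht)
              · exact b.2.2.1 y hy
            · rintro y (rfl | hy)
              · exact incident_comm hadj.2
              · exact b.2.2.2 y hy
          have := ih (insert (a : Element ρ) F) hga hF' b hb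
          exact this.mono (insert_subset_insert (subset_insert _ _))
      refine key _ _ p ⟨g, ?_⟩
      rintro x (rfl | hx)
      · exact mem_elt ρ _ g
      · exact hg x hx

/-- Every chamber of a thin and residually connected coset geometry of a C-group is a standard
chamber. -/
theorem good_of_isChamber {ρ : Fin r → G} (hC : IsCGroup ρ) (hthin : IsThin ρ)
    (hrc : IsResiduallyConnected ρ) {C : Set (Element ρ)} (hCh : IsChamber C) : Good C := by
  have hflag := hCh.1
  refine Set.Finite.induction_on_subset (motive := fun S _ => Good S) C hflag.finite ?_ ?_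
  · exact ⟨1, fun x hx => absurd hx (notMem_empty x)⟩
  · intro a S haC hSC haS hS
    have hSflag := hS.isFlag
    have hle : S.encard ≤ r := by
      rw [hSflag.encard_eq]
      calc (Element.typ '' S).encard ≤ (univ : Set (Fin r)).encard :=
            Set.encard_le_encard (subset_univ _)
        _ = r := by rw [Set.encard_univ]; simp
    have hfin := hSflag.finite
    have hcast : S.encard = (S.ncard : ℕ∞) := (hfin.cast_ncard_eq).symm
    rw [hcast] at hle
    have hle' : S.ncard ≤ r := by exact_mod_cast hle
    refine good_insert hC hthin hrc (r - S.ncard) S hS ?_ a ?_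
    · rw [hcast]
      have : S.ncard + (r - S.ncard) = r := by omega
      exact_mod_cast this
    · refine ⟨haS, ?_, ?_⟩
      · intro y hy ht
        have : y = a := hflag.injOn (hSC hy) haC ht
        exact haS (this ▸ hy)
      · intro y hy
        exact hflag a haC y (hSC hy)

/-- **Main theorem.**  Let `(G, {ρ_0, …, ρ_{r-1}})` be a C-group of any rank `r` (in particular of
any rank `r ≥ 4`).  If its coset geometry is thin and residually connected, then it is
flag-transitive. -/
theorem result {G : Type u} [Group G] {r : ℕ} (ρ : Fin r → G) (hC : IsCGroup ρ)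
    (hthin : IsThin ρ) (hrc : IsResiduallyConnected ρ) : IsFlagTransitive ρ := by
  intro C D hCh hDh
  obtain ⟨g, hg⟩ := good_of_isChamber hC hthin hrc hCh
  obtain ⟨k, hk⟩ := good_of_isChamber hC hthin hrc hDh
  have hCe := ch_eq_of_chamber hCh hg
  have hDe := ch_eq_of_chamber hDh hk
  have hmul : ∀ i, (elt ρ i g).mulRight (g⁻¹ * k) = elt ρ i k := by
    intro i
    have hmem : k ∈ ((elt ρ i g).mulRight (g⁻¹ * k)).coset :=
      ⟨g, mem_elt ρ i g, by group⟩
    exact eq_elt _ hmem
  refine ⟨g⁻¹ * k, ?_⟩
  rw [hCe, hDe]
  ext x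
  constructor
  · rintro ⟨_, ⟨i, rfl⟩, rfl⟩
    exact ⟨i, (hmul i).symm⟩
  · rintro ⟨i, rfl⟩
    exact ⟨elt ρ i g, ⟨i, rfl⟩, hmul i⟩

end Pool.Agent.Results.MP_0d307c_co.ThinRCFlagTransitive
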